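import Pool.Agent.P.MP_e2f787_al.HPoly

namespace Pool.Agent.Results.MP_e2f787_al.HirschThree

theorem result (Q : Type) [Group Q] (m : ℕ) (H : ℕ → Subgroup Q) (h0 : H 0 = ⊥) (hm : H m = ⊤)
    (hH : ∀ i < m, H i ≤ H (i + 1) ∧ ∃ _ : ((H i).subgroupOf (H (i + 1))).Normal,
      Finite (H (i + 1) ⧸ (H i).subgroupOf (H (i + 1))) ∨
        IsCyclic (H (i + 1) ⧸ (H i).subgroupOf (H (i + 1))))
    (h3 : {i | i < m ∧ Infinite (H (i + 1) ⧸ (H i).subgroupOf (H (i + 1)))}.ncard ≤ 3) :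
    (∀ (G : Type) [Group G] [Group.FG G] (π : G →* Q), Function.Surjective π →
      (∀ a ∈ π.ker, ∀ b ∈ π.ker, a * b = b * a) →
      ∃ (M : Type) (_ : Group M), Group.FG M ∧ derivedSeries M 2 = ⊥ ∧
        ∃ f : G →* MulAut M, Function.Injective f) ↔
    ∃ K : Subgroup Q, K.index ≠ 0 ∧ Group.IsNilpotent K :=
  Pool.Agent.P.MP_e2f787_al.Heis.hirsch_three Q m H h0 hm hH h3

end Pool.Agent.Results.MP_e2f787_al.HirschThree
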